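import Mathlib

/-! # Sequences whose second sums grow like `a log m` -/

set_option autoImplicit false

open Finset Filter Topology

namespace Pool.Agent.U139.GC

/-- the second sum `m c_0 + 2 ∑_{1 ≤ k < m} (m - k) c_k` -/
noncomputable def W (c : ℕ → ℝ) (m : ℕ) : ℝ := m * c 0 + 2 * ∑ k ∈ Ico 1 m, ((m : ℝ) - k) * c k

/-- the first sum `c_0 + 2 ∑_{1 ≤ k ≤ m} c_k` -/
noncomputable def D (c : ℕ → ℝ) (m : ℕ) : ℝ := c 0 + 2 * ∑ k ∈ Ico 1 (m + 1), c k

lemma W_succ (c : ℕ → ℝ) (m : ℕ) : W c (m + 1) = W c m + D c m := by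
  unfold W D
  rcases Nat.eq_zero_or_pos m with h | h
  · subst h; simp
  · have e1 : ∑ k ∈ Ico 1 (m + 1), (((m + 1 : ℕ) : ℝ) - k) * c k =
        ∑ k ∈ Ico 1 (m + 1), ((m : ℝ) - k) * c k + ∑ k ∈ Ico 1 (m + 1), c k := by
      rw [← Finset.sum_add_distrib]
      refine Finset.sum_congr rfl fun k _ => ?_
      push_cast
      ring
    have e2 : ∑ k ∈ Ico 1 (m + 1), ((m : ℝ) - k) * c k = ∑ k ∈ Ico 1 m, ((m : ℝ) - k) * c k := by
      rw [Finset.sum_Ico_succ_top h]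
      ring
    rw [e1, e2]
    push_cast
    ring

lemma W_dif (c : ℕ → ℝ) {m n : ℕ} (h : m ≤ n) : W c n = W c m + ∑ j ∈ Ico m n, D c j := by
  induction n, h using Nat.le_induction with
  | base => simp
  | succ n hn ih => rw [W_succ, ih, Finset.sum_Ico_succ_top hn]; ring

lemma D_dif (c : ℕ → ℝ) {m n : ℕ} (h : m ≤ n) :
    D c n = D c m + 2 * ∑ k ∈ Ico (m + 1) (n + 1), c k := by
  unfold D
  rw [← Finset.sum_Ico_consecutive c (show 1 ≤ m + 1 by omega) (show m + 1 ≤ n + 1 by omega)]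
  ring

lemma sq_up {m n : ℕ} (hm : 1 ≤ m) (h : m ≤ n) :
    ∑ k ∈ Ico (m + 1) (n + 1), 1 / (k : ℝ) ^ 2 ≤ 1 / (m : ℝ) - 1 / (n : ℝ) := by
  induction n, h using Nat.le_induction with
  | base => simp
  | succ n hn ih =>
    rw [Finset.sum_Ico_succ_top (by omega)]
    have hn0 : (0 : ℝ) < n := by exact_mod_cast (by omega : 0 < n)
    have h1 : 1 / ((n + 1 : ℕ) : ℝ) ^ 2 ≤ 1 / n - 1 / ((n + 1 : ℕ) : ℝ) := by
      push_cast
      rw [div_sub_div _ _ hn0.ne' (by positivity), div_le_div_iff₀ (by positivity) (by positivity)]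
      nlinarith
    linarith

lemma sq_low {m n : ℕ} (h : m ≤ n) :
    1 / ((m : ℝ) + 1) - 1 / ((n : ℝ) + 1) ≤ ∑ k ∈ Ico (m + 1) (n + 1), 1 / (k : ℝ) ^ 2 := by
  induction n, h using Nat.le_induction with
  | base => simp
  | succ n hn ih =>
    rw [Finset.sum_Ico_succ_top (by omega)]
    have hn0 : (0 : ℝ) ≤ n := Nat.cast_nonneg n
    have h1 : 1 / ((n : ℝ) + 1) - 1 / (((n + 1 : ℕ) : ℝ) + 1) ≤ 1 / ((n + 1 : ℕ) : ℝ) ^ 2 := by
      push_cast
      rw [div_sub_div _ _ (by positivity) (by positivity),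
        div_le_div_iff₀ (by positivity) (by positivity)]
      nlinarith
    linarith

lemma log_step {j : ℕ} (hj : 1 ≤ j) :
    1 / ((j : ℝ) + 1) ≤ Real.log ((j : ℝ) + 1) - Real.log j := by
  have hj0 : (0 : ℝ) < j := by exact_mod_cast hj
  have h1 := Real.one_sub_inv_le_log_of_pos (show 0 < ((j : ℝ) + 1) / j by positivity)
  rw [Real.log_div (by positivity) hj0.ne'] at h1
  refine le_trans (le_of_eq ?_) h1
  field_simp
  ring

lemma log_step2 {j : ℕ} (hj : 1 ≤ j) :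
    Real.log ((j : ℝ) + 1) - Real.log j ≤ 1 / (j : ℝ) := by
  have hj0 : (0 : ℝ) < j := by exact_mod_cast hj
  have h1 := Real.log_le_sub_one_of_pos (show 0 < ((j : ℝ) + 1) / j by positivity)
  rw [Real.log_div (by positivity) hj0.ne'] at h1
  refine h1.trans (le_of_eq ?_)
  field_simp
  ring

lemma log_tel {m n : ℕ} (h : m ≤ n) :
    ∑ j ∈ Ico m n, (Real.log ((j : ℝ) + 1) - Real.log j) = Real.log n - Real.log m := by
  induction n, h using Nat.le_induction with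
  | base => simp
  | succ n hn ih => rw [Finset.sum_Ico_succ_top hn, ih]; push_cast; ring

lemma log_tel2 {m n : ℕ} (hm : 1 ≤ m) (h : m ≤ n) :
    Real.log n - Real.log m - 1 / m ≤ ∑ j ∈ Ico m n, 1 / ((j : ℝ) + 1) := by
  have h1 : ∑ j ∈ Ico m n, (Real.log (((j + 1 : ℕ) : ℝ) + 1) - Real.log ((j + 1 : ℕ) : ℝ)) ≤
      ∑ j ∈ Ico m n, 1 / ((j : ℝ) + 1) := by
    refine Finset.sum_le_sum fun j _ => ?_
    refine (log_step2 (show 1 ≤ j + 1 by omega)).trans (le_of_eq ?_)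
    push_cast
    ring
  have h2 : ∑ j ∈ Ico m n, (Real.log (((j + 1 : ℕ) : ℝ) + 1) - Real.log ((j + 1 : ℕ) : ℝ)) =
      Real.log ((n : ℝ) + 1) - Real.log ((m : ℝ) + 1) := by
    induction n, h using Nat.le_induction with
    | base => simp
    | succ n hn ih =>
      rw [Finset.sum_Ico_succ_top hn, ih]
      · push_cast; ring
      · refine Finset.sum_le_sum fun j _ => ?_
        refine (log_step2 (show 1 ≤ j + 1 by omega)).trans (le_of_eq ?_)
        push_cast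
        ring
  have h3 := log_step2 hm
  have hm0 : (0 : ℝ) < m := by exact_mod_cast hm
  have hn0 : (0 : ℝ) < n := by exact_mod_cast (by omega : 0 < n)
  have h4 : Real.log n ≤ Real.log ((n : ℝ) + 1) := Real.log_le_log hn0 (by linarith)
  linarith

/-- some `c_k` is as small as `-(a/2 - ε) / k²` -/
lemma exists_low {c : ℕ → ℝ} {a ε e' : ℝ} {K K1 M : ℕ} (hK : 1 ≤ K) (hK1 : K ≤ K1) (hM : K1 ≤ M)
    (he : 0 < ε) (hea : 2 * ε ≤ a) (hW : ∀ m, K ≤ m → m ≤ M → |W c m - a * Real.log m| ≤ e')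
    (h1 : 2 * e' < ε * (Real.log K1 - Real.log K)) (h2 : 2 * a / ε ≤ K)
    (h3 : a * Real.log M + 2 * e' < ((M : ℝ) - K1) * (ε / (2 * K1))) :
    ∃ k, K ≤ k ∧ k ≤ M ∧ (k : ℝ) ^ 2 * c k ≤ -(a / 2) + ε := by
  by_contra hcon
  push Not at hcon
  have ha : 0 < a := by linarith
  obtain ⟨m, hm1, hm2, hm3⟩ : ∃ m, K ≤ m ∧ m < K1 ∧
      (a - ε) * (Real.log ((m : ℝ) + 1) - Real.log m) ≤ D c m := by
    by_contra h
    push Not at h
    have h4 : ∑ j ∈ Ico K K1, D c j ≤ ∑ j ∈ Ico K K1, (a - ε) * (Real.log ((j : ℝ) + 1) - Real.log j) := by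
      refine Finset.sum_le_sum fun j hj => ?_
      rw [Finset.mem_Ico] at hj
      exact (h j hj.1 hj.2).le
    rw [← Finset.mul_sum, log_tel hK1] at h4
    have h5 := W_dif c hK1
    have h6 := (abs_le.1 (hW K le_rfl (hK1.trans hM))).2
    have h7 := (abs_le.1 (hW K1 hK1 hM)).1
    nlinarith
  have hm0 : (0 : ℝ) < m := by exact_mod_cast (by omega : 0 < m)
  have hKm : (K : ℝ) ≤ m := by exact_mod_cast hm1
  have hmK1 : (m : ℝ) + 1 ≤ K1 := by exact_mod_cast hm2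
  have hDm : (a - ε) * (1 / ((m : ℝ) + 1)) ≤ D c m :=
    (mul_le_mul_of_nonneg_left (log_step (by omega)) (by linarith)).trans hm3
  -- all the later first sums are large
  have key : ∀ n, m ≤ n → n ≤ M → ε / (2 * K1) ≤ D c n := by
    intro n hn hnM
    have h4 := D_dif c hn
    obtain ⟨b, hb⟩ : ∃ b : ℝ, b = a / 2 - ε := ⟨_, rfl⟩
    have hb0 : 0 ≤ b := by rw [hb]; linarith
    have h5 : -(b * (1 / m)) ≤ ∑ k ∈ Ico (m + 1) (n + 1), c k := by
      have h6 : ∑ k ∈ Ico (m + 1) (n + 1), (-b * (1 / (k : ℝ) ^ 2)) ≤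
          ∑ k ∈ Ico (m + 1) (n + 1), c k := by
        refine Finset.sum_le_sum fun k hk => ?_
        rw [Finset.mem_Ico] at hk
        have hk0 : (0 : ℝ) < k := by exact_mod_cast (by omega : 0 < k)
        have h7 := hcon k (by omega) (by omega)
        have h8 : -b ≤ (k : ℝ) ^ 2 * c k := by rw [hb]; linarith
        have h9 : -b * (1 / (k : ℝ) ^ 2) ≤ ((k : ℝ) ^ 2 * c k) * (1 / (k : ℝ) ^ 2) :=
          mul_le_mul_of_nonneg_right h8 (by positivity)
        refine h9.trans (le_of_eq ?_)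
        field_simp
      rw [← Finset.mul_sum] at h6
      have h7 := sq_up (show 1 ≤ m by omega) hn
      have hn0 : (0 : ℝ) < n := by exact_mod_cast (by omega : 0 < n)
      have h8 : (0 : ℝ) ≤ 1 / n := by positivity
      have h9 : b * (∑ k ∈ Ico (m + 1) (n + 1), 1 / (k : ℝ) ^ 2) ≤ b * (1 / m) :=
        mul_le_mul_of_nonneg_left (by linarith) hb0
      linarith
    have h6 : ε / (2 * ((m : ℝ) + 1)) ≤ (a - ε) * (1 / ((m : ℝ) + 1)) - 2 * (b * (1 / m)) := by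
      have hmm : 2 * a ≤ ε * m := by
        rw [div_le_iff₀ he] at h2
        nlinarith
      rw [hb]
      have e1 : (a - ε) * (1 / ((m : ℝ) + 1)) - 2 * ((a / 2 - ε) * (1 / m)) =
          (ε * m - (a - 2 * ε)) / (m * (m + 1)) := by
        field_simp
        ring
      rw [e1, div_le_div_iff₀ (by positivity) (by positivity)]
      nlinarith [mul_pos hm0 (by linarith : (0 : ℝ) < m + 1)]
    have h7 : ε / (2 * (K1 : ℝ)) ≤ ε / (2 * ((m : ℝ) + 1)) := by
      apply div_le_div_of_nonneg_left he.le (by positivity) (by linarith)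
    linarith
  have h5 := W_dif c hM
  have h6 : ((M : ℝ) - K1) * (ε / (2 * K1)) ≤ ∑ j ∈ Ico K1 M, D c j := by
    have h7 : ∑ _j ∈ Ico K1 M, ε / (2 * (K1 : ℝ)) ≤ ∑ j ∈ Ico K1 M, D c j := by
      refine Finset.sum_le_sum fun j hj => ?_
      rw [Finset.mem_Ico] at hj
      exact key j (by omega) (by omega)
    rw [Finset.sum_const, Nat.card_Ico, nsmul_eq_mul, Nat.cast_sub hM] at h7
    exact h7
  have h8 := (abs_le.1 (hW M (hK1.trans hM) le_rfl)).2
  have h9 := (abs_le.1 (hW K1 hK1 hM)).1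
  have h10 : 0 ≤ Real.log K1 := Real.log_natCast_nonneg K1
  nlinarith

/-- some `c_k` is as large as `-(a/2 + ε) / k²` -/
lemma exists_high {c : ℕ → ℝ} {a ε e' : ℝ} {K K1 K2 M : ℕ} (hK : 1 ≤ K) (hK1 : K ≤ K1)
    (hK2 : K1 ≤ K2) (hM : K2 < M) (he : 0 < ε) (ha : 0 < a) (he' : 0 ≤ e')
    (hW : ∀ m, K ≤ m → m ≤ M → |W c m - a * Real.log m| ≤ e')
    (h1 : 2 * e' < ε * (Real.log K1 - Real.log K))
    (h2 : (a + 2 * ε) / K + K1 * ((a + 2 * ε) / K2 + 2 * e' / ((M : ℝ) - K2)) <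
      ε * (Real.log K1 - Real.log K)) :
    ∃ k, K ≤ k ∧ k ≤ M ∧ -(a / 2) - ε ≤ (k : ℝ) ^ 2 * c k := by
  by_contra hcon
  push Not at hcon
  obtain ⟨b, hb⟩ : ∃ b : ℝ, b = a / 2 + ε := ⟨_, rfl⟩
  have hb0 : 0 < b := by rw [hb]; linarith
  have hck : ∀ k, K ≤ k → k ≤ M → c k ≤ -b * (1 / (k : ℝ) ^ 2) := by
    intro k hk hkM
    have hk0 : (0 : ℝ) < k := by exact_mod_cast (by omega : 0 < k)
    have h3 := (hcon k hk hkM).le
    have h4 : ((k : ℝ) ^ 2 * c k) * (1 / (k : ℝ) ^ 2) ≤ -b * (1 / (k : ℝ) ^ 2) :=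
      mul_le_mul_of_nonneg_right (by rw [hb]; linarith) (by positivity)
    refine le_trans (le_of_eq ?_) h4
    field_simp
  have hsum : ∀ m n, K ≤ m → m ≤ n → n ≤ M →
      ∑ k ∈ Ico (m + 1) (n + 1), c k ≤ -b * (1 / ((m : ℝ) + 1) - 1 / ((n : ℝ) + 1)) := by
    intro m n hm hmn hn
    have h3 : ∑ k ∈ Ico (m + 1) (n + 1), c k ≤ ∑ k ∈ Ico (m + 1) (n + 1), -b * (1 / (k : ℝ) ^ 2) := by
      refine Finset.sum_le_sum fun k hk => ?_
      rw [Finset.mem_Ico] at hk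
      exact hck k (by omega) (by omega)
    rw [← Finset.mul_sum] at h3
    have h4 := mul_le_mul_of_nonneg_left (sq_low hmn) hb0.le
    linarith
  have hMK : (0 : ℝ) < (M : ℝ) - K2 := by
    have : (K2 : ℝ) < M := by exact_mod_cast hM
    linarith
  -- the first sum at `K2`
  have hD2 : -(2 * e' / ((M : ℝ) - K2)) ≤ D c K2 := by
    have h3 := W_dif c hM.le
    have h4 : ∑ j ∈ Ico K2 M, D c j ≤ ((M : ℝ) - K2) * D c K2 := by
      have h5 : ∑ j ∈ Ico K2 M, D c j ≤ ∑ _j ∈ Ico K2 M, D c K2 := by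
        refine Finset.sum_le_sum fun j hj => ?_
        rw [Finset.mem_Ico] at hj
        have h6 := D_dif c hj.1
        have h7 := hsum K2 j (by omega) hj.1 hj.2.le
        have hjK : (K2 : ℝ) ≤ j := by exact_mod_cast hj.1
        have h8 : 1 / ((j : ℝ) + 1) ≤ 1 / ((K2 : ℝ) + 1) :=
          one_div_le_one_div_of_le (by positivity) (by linarith)
        have h9 : 0 ≤ b * (1 / ((K2 : ℝ) + 1) - 1 / ((j : ℝ) + 1)) :=
          mul_nonneg hb0.le (by linarith)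
        linarith
      rw [Finset.sum_const, Nat.card_Ico, nsmul_eq_mul, Nat.cast_sub hM.le] at h5
      exact h5
    have h5 := (abs_le.1 (hW M (by omega) le_rfl)).1
    have h6 := (abs_le.1 (hW K2 (by omega) hM.le)).2
    have h7 : Real.log K2 ≤ Real.log M :=
      Real.log_le_log (by exact_mod_cast (by omega : 0 < K2)) (by exact_mod_cast hM.le)
    have h8 : a * Real.log K2 ≤ a * Real.log M := mul_le_mul_of_nonneg_left h7 ha.le
    have h9 : -(2 * e') ≤ ((M : ℝ) - K2) * D c K2 := by linarith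
    rw [← neg_div, div_le_iff₀ hMK]
    linarith
  -- the growth between `K` and `K1`
  have h3 : ∑ j ∈ Ico K K1, D c j ≥ ∑ j ∈ Ico K K1, (2 * b * (1 / ((j : ℝ) + 1)) -
      (2 * b / K2 + 2 * e' / ((M : ℝ) - K2))) := by
    refine Finset.sum_le_sum fun j hj => ?_
    rw [Finset.mem_Ico] at hj
    have h4 := D_dif c (show j ≤ K2 by omega)
    have h5 := hsum j K2 hj.1 (by omega) hM.le
    have hK20 : (0 : ℝ) < K2 := by exact_mod_cast (by omega : 0 < K2)
    have h6 : 1 / ((K2 : ℝ) + 1) ≤ 1 / K2 := one_div_le_one_div_of_le hK20 (by linarith)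
    have h7 : b * (1 / ((K2 : ℝ) + 1)) ≤ b * (1 / K2) := mul_le_mul_of_nonneg_left h6 hb0.le
    have e1 : 2 * b / K2 = 2 * (b * (1 / K2)) := by ring
    rw [e1]
    linarith
  rw [Finset.sum_sub_distrib, ← Finset.mul_sum, Finset.sum_const, Nat.card_Ico, nsmul_eq_mul,
    Nat.cast_sub hK1] at h3
  have h4 := log_tel2 hK hK1
  have h5 := W_dif c hK1
  have h6 := (abs_le.1 (hW K le_rfl (by omega))).1
  have h7 := (abs_le.1 (hW K1 hK1 (by omega))).2
  have hK0 : (0 : ℝ) < K := by exact_mod_cast hK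
  have h8 : 2 * b * (Real.log K1 - Real.log K - 1 / K) ≤ 2 * b * ∑ j ∈ Ico K K1, 1 / ((j : ℝ) + 1) :=
    mul_le_mul_of_nonneg_left h4 (by positivity)
  have hK20 : (0 : ℝ) < K2 := by exact_mod_cast (by omega : 0 < K2)
  have h9 : 0 ≤ 2 * b / K2 + 2 * e' / ((M : ℝ) - K2) := by positivity
  have h10 : ((K1 : ℝ) - K) * (2 * b / K2 + 2 * e' / ((M : ℝ) - K2)) ≤
      K1 * (2 * b / K2 + 2 * e' / ((M : ℝ) - K2)) :=
    mul_le_mul_of_nonneg_right (by linarith) h9
  have e2 : a + 2 * ε = 2 * b := by rw [hb]; ring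
  rw [e2] at h2
  have e3 : 2 * b * (Real.log K1 - Real.log K - 1 / K) =
      (a + 2 * ε) * (Real.log K1 - Real.log K) - 2 * b / K := by rw [e2]; ring
  rw [e3] at h8
  have h11 : (a + 2 * ε) * (Real.log K1 - Real.log K) =
    a * Real.log K1 - a * Real.log K + 2 * (ε * (Real.log K1 - Real.log K)) := by ring
  linarith

end Pool.Agent.U139.GC
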