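import Pool.Agent.R846.NC.Abs
import Pool.Agent.U139.GC.Seq

/-! # Second sums of the covariances of a perturbed sequence -/

set_option autoImplicit false

open Finset Filter Topology

namespace Pool.Agent.U139.GC

open Pool.Agent.R846.NC (AA cov expand)

lemma log_sq_le {N : ℕ} (hN : 1 ≤ N) : (1 + Real.log N) ^ 2 ≤ 16 * Real.sqrt N := by
  have hN0 : (0 : ℝ) < N := by exact_mod_cast hN
  obtain ⟨u, hu⟩ : ∃ u : ℝ, u = Real.sqrt (Real.sqrt N) := ⟨_, rfl⟩
  have hu0 : 0 < u := by rw [hu]; exact Real.sqrt_pos.2 (Real.sqrt_pos.2 hN0)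
  have hu2 : u ^ 2 = Real.sqrt N := by rw [hu]; exact Real.sq_sqrt (Real.sqrt_nonneg _)
  have hu4 : u ^ 4 = N := by
    have : u ^ 4 = (u ^ 2) ^ 2 := by ring
    rw [this, hu2]
    exact Real.sq_sqrt hN0.le
  have h1 : Real.log N = 4 * Real.log u := by
    rw [← hu4, Real.log_pow]
    push_cast
    ring
  have h2 := Real.log_le_sub_one_of_pos hu0
  have h3 : 0 ≤ Real.log N := Real.log_nonneg (by exact_mod_cast hN)
  have h4 : 1 + Real.log N ≤ 4 * u := by rw [h1]; linarith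
  calc (1 + Real.log N) ^ 2 ≤ (4 * u) ^ 2 := by gcongr
    _ = 16 * Real.sqrt N := by rw [← hu2]; ring

/-- weights `1 / (1 + log n)²` -/
lemma weight_sum {w : ℕ → ℝ} {B : ℝ} (hw : ∀ n, 0 ≤ w n) (hB : 0 ≤ B)
    (h : ∀ N : ℕ, ∑ n ∈ Icc 1 N, w n ≤ B * N) {N : ℕ} (hN : 1 ≤ N) :
    ∑ n ∈ Icc 1 N, w n / (1 + Real.log n) ^ 2 ≤ 20 * B * (N / (1 + Real.log N) ^ 2) := by
  have hN1 : (1 : ℝ) ≤ N := by exact_mod_cast hN
  have hN0 : (0 : ℝ) < N := by linarith
  have hl : 0 ≤ Real.log N := Real.log_nonneg hN1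
  obtain ⟨s, hs⟩ : ∃ s : ℝ, s = Real.sqrt N := ⟨_, rfl⟩
  have hs0 : 0 < s := by rw [hs]; exact Real.sqrt_pos.2 hN0
  have hs2 : s ^ 2 = N := by rw [hs]; exact Real.sq_sqrt hN0.le
  have hlog := log_sq_le hN
  rw [← hs] at hlog
  have hlogs : Real.log s = Real.log N / 2 := by
    rw [← hs2, Real.log_pow]
    push_cast
    ring
  have hpt : ∀ n ∈ Icc 1 N, w n / (1 + Real.log n) ^ 2 ≤
      (if n ≤ ⌊s⌋₊ then w n else 0) + 4 / (1 + Real.log N) ^ 2 * w n := by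
    intro n hn
    rw [Finset.mem_Icc] at hn
    have hn0 : (1 : ℝ) ≤ n := by exact_mod_cast hn.1
    have hln : 0 ≤ Real.log n := Real.log_nonneg hn0
    split_ifs with hc
    · have h1 : w n / (1 + Real.log n) ^ 2 ≤ w n := by
        apply div_le_self (hw n)
        exact one_le_pow₀ (by linarith)
      have h2 : 0 ≤ 4 / (1 + Real.log N) ^ 2 * w n := mul_nonneg (by positivity) (hw n)
      linarith
    · push Not at hc
      have h1 : s < n := (Nat.floor_lt hs0.le).1 hc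
      have h2 : Real.log s ≤ Real.log n := Real.log_le_log hs0 h1.le
      rw [hlogs] at h2
      have h3 : (1 + Real.log N) ^ 2 / 4 ≤ (1 + Real.log n) ^ 2 := by
        have : ((1 + Real.log N) / 2) ^ 2 ≤ (1 + Real.log n) ^ 2 :=
          pow_le_pow_left₀ (by linarith) (by linarith) 2
        calc _ = ((1 + Real.log N) / 2) ^ 2 := by ring
          _ ≤ _ := this
      rw [zero_add]
      calc w n / (1 + Real.log n) ^ 2 ≤ w n / ((1 + Real.log N) ^ 2 / 4) :=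
            div_le_div_of_nonneg_left (hw n) (by positivity) h3
        _ = _ := by field_simp
  refine (Finset.sum_le_sum hpt).trans ?_
  rw [Finset.sum_add_distrib, ← Finset.mul_sum, ← Finset.sum_filter]
  have h1 : ∑ n ∈ (Icc 1 N).filter (fun n => n ≤ ⌊s⌋₊), w n ≤ B * s := by
    calc ∑ n ∈ (Icc 1 N).filter (fun n => n ≤ ⌊s⌋₊), w n ≤ ∑ n ∈ Icc 1 ⌊s⌋₊, w n := by
          apply Finset.sum_le_sum_of_subset_of_nonneg
          · intro n hn
            rw [Finset.mem_filter, Finset.mem_Icc] at hn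
            rw [Finset.mem_Icc]
            exact ⟨hn.1.1, hn.2⟩
          · intro n _ _
            exact hw n
      _ ≤ B * (⌊s⌋₊ : ℝ) := h _
      _ ≤ B * s := by
          apply mul_le_mul_of_nonneg_left _ hB
          exact Nat.floor_le hs0.le
  have h2 : 4 / (1 + Real.log N) ^ 2 * ∑ n ∈ Icc 1 N, w n ≤ 4 / (1 + Real.log N) ^ 2 * (B * N) :=
    mul_le_mul_of_nonneg_left (h N) (by positivity)
  have h3 : B * s ≤ 16 * B * (N / (1 + Real.log N) ^ 2) := by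
    have h4 : s ≤ 16 * (N / (1 + Real.log N) ^ 2) := by
      rw [mul_div_assoc', le_div_iff₀ (by positivity)]
      calc s * (1 + Real.log N) ^ 2 ≤ s * (16 * s) := by gcongr
        _ = 16 * N := by rw [← hs2]; ring
    calc B * s ≤ B * (16 * (N / (1 + Real.log N) ^ 2)) := by gcongr
      _ = _ := by ring
  have h4 : 4 / (1 + Real.log N) ^ 2 * (B * N) = 4 * B * (N / (1 + Real.log N) ^ 2) := by ring
  linarith

/-- the assumptions on the two sequences -/
structure Pair (δ d : ℕ → ℝ) : Prop where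
  ex : ∃ (C : ℝ) (n0 : ℕ), 0 < C ∧ ∀ n, n0 ≤ n → 0 ≤ δ n ∧ 0 ≤ δ n - d n ∧
    δ n - d n ≤ C * δ n / (1 + Real.log n) ∧ δ n ≤ C * (1 + Real.log n)
  cube : ∃ C : ℝ, 0 < C ∧ ∀ N : ℕ, ∑ n ∈ Icc 1 N, (max (δ n) 0) ^ 3 ≤ C * N

lemma Pair.growth {δ d : ℕ → ℝ} (h : Pair δ d) :
    ∃ C : ℝ, 0 < C ∧ ∀ n : ℕ, 1 ≤ n → |δ n - 1| ≤ C * (1 + Real.log n) := by
  obtain ⟨C, n0, hC, hn⟩ := h.ex
  refine ⟨C + 1 + ∑ n ∈ range n0, |δ n - 1|, by
    have : 0 ≤ ∑ n ∈ range n0, |δ n - 1| := Finset.sum_nonneg fun _ _ => abs_nonneg _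
    linarith, fun n hn1 => ?_⟩
  have hG : 0 ≤ ∑ n ∈ range n0, |δ n - 1| := Finset.sum_nonneg fun _ _ => abs_nonneg _
  have hl : 0 ≤ Real.log n := Real.log_nonneg (by exact_mod_cast hn1)
  rcases lt_or_ge n n0 with hc | hc
  · have h1 : |δ n - 1| ≤ ∑ n ∈ range n0, |δ n - 1| :=
      Finset.single_le_sum (f := fun n => |δ n - 1|) (fun _ _ => abs_nonneg _)
        (Finset.mem_range.2 hc)
    nlinarith
  · obtain ⟨h1, h2, h3, h4⟩ := hn n hc
    rw [abs_le]
    constructor <;> nlinarith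

lemma Pair.close {δ d : ℕ → ℝ} (h : Pair δ d) : ∃ C : ℝ, 0 < C ∧ ∀ N : ℕ, 1 ≤ N →
    ∑ n ∈ Icc 1 N, (δ n - d n) ^ 2 ≤ C * (N / (1 + Real.log N) ^ 2) := by
  obtain ⟨C, n0, hC, hn⟩ := h.ex
  obtain ⟨C1, hC1, hc1⟩ := h.cube
  obtain ⟨G, hG⟩ : ∃ G : ℝ, G = ∑ n ∈ range n0, (δ n - d n) ^ 2 := ⟨_, rfl⟩
  have hG0 : 0 ≤ G := by rw [hG]; exact Finset.sum_nonneg fun _ _ => sq_nonneg _
  refine ⟨16 * G + C ^ 2 * (20 * (C1 + 1)), by positivity, fun N hN => ?_⟩
  have hN1 : (1 : ℝ) ≤ N := by exact_mod_cast hN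
  have hN0 : (0 : ℝ) < N := by linarith
  have hw : ∀ N : ℕ, ∑ n ∈ Icc 1 N, (1 + (max (δ n) 0) ^ 3) ≤ (C1 + 1) * N := by
    intro N
    rw [Finset.sum_add_distrib, Finset.sum_const, Nat.card_Icc, nsmul_eq_mul]
    have := hc1 N
    simp only [Nat.add_sub_cancel, mul_one]
    linarith
  have hw2 := weight_sum (w := fun n => 1 + (max (δ n) 0) ^ 3) (fun n => by positivity)
    (by positivity) hw hN
  have hpt : ∀ n ∈ Icc 1 N, (δ n - d n) ^ 2 ≤ (if n < n0 then (δ n - d n) ^ 2 else 0) +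
      C ^ 2 * ((1 + (max (δ n) 0) ^ 3) / (1 + Real.log n) ^ 2) := by
    intro n hn'
    rw [Finset.mem_Icc] at hn'
    have hl : 0 ≤ Real.log n := Real.log_nonneg (by exact_mod_cast hn'.1)
    split_ifs with hc
    · have : 0 ≤ C ^ 2 * ((1 + (max (δ n) 0) ^ 3) / (1 + Real.log n) ^ 2) := by positivity
      linarith
    · push Not at hc
      obtain ⟨h1, h2, h3, h4⟩ := hn n hc
      rw [zero_add, max_eq_left h1]
      have h5 : (δ n - d n) ^ 2 ≤ (C * δ n / (1 + Real.log n)) ^ 2 := pow_le_pow_left₀ h2 h3 2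
      refine h5.trans ?_
      rw [div_pow, mul_pow, mul_div_assoc]
      have h6 : δ n ^ 2 ≤ 1 + δ n ^ 3 := by
        rcases le_total (δ n) 1 with h7 | h7
        · have : δ n ^ 2 ≤ 1 := pow_le_one₀ h1 h7
          have : 0 ≤ δ n ^ 3 := by positivity
          linarith
        · have : δ n ^ 2 ≤ δ n ^ 3 := pow_le_pow_right₀ h7 (by norm_num)
          linarith
      gcongr
  refine (Finset.sum_le_sum hpt).trans ?_
  rw [Finset.sum_add_distrib, ← Finset.mul_sum, ← Finset.sum_filter]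
  have h1 : ∑ n ∈ (Icc 1 N).filter (fun n => n < n0), (δ n - d n) ^ 2 ≤ G := by
    rw [hG]
    apply Finset.sum_le_sum_of_subset_of_nonneg
    · intro n hn'
      rw [Finset.mem_filter] at hn'
      exact Finset.mem_range.2 hn'.2
    · intro n _ _
      exact sq_nonneg _
  have h2 : G ≤ 16 * G * (N / (1 + Real.log N) ^ 2) := by
    have h3 : 1 ≤ 16 * (N / (1 + Real.log N) ^ 2) := by
      rw [mul_div_assoc', le_div_iff₀ (by positivity), one_mul]
      refine (log_sq_le hN).trans ?_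
      have : Real.sqrt N ≤ N := by
        rw [Real.sqrt_le_left (by linarith)]
        nlinarith
      linarith
    nlinarith
  have h3 : C ^ 2 * ∑ n ∈ Icc 1 N, (1 + (max (δ n) 0) ^ 3) / (1 + Real.log n) ^ 2 ≤
      C ^ 2 * (20 * (C1 + 1)) * (N / (1 + Real.log N) ^ 2) := by
    calc _ ≤ C ^ 2 * (20 * (C1 + 1) * (N / (1 + Real.log N) ^ 2)) := by gcongr
      _ = _ := by ring
  linarith

/-- the block sums of the perturbation -/
lemma Pair.block {δ d : ℕ → ℝ} (h : Pair δ d) : ∃ C : ℝ, 0 < C ∧ ∀ m N : ℕ, 2 ≤ m → 1 ≤ N →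
    (m : ℝ) * Real.log m ≤ Real.log N → m ≤ N →
    ∑ n ∈ Icc 1 N, (∑ i ∈ range m, (δ (n + i) - d (n + i))) ^ 2 ≤ C * (N / Real.log m ^ 2) := by
  obtain ⟨C, hC, hc⟩ := h.close
  refine ⟨2 * C, by positivity, fun m N hm hN hmN hle => ?_⟩
  have hm0 : (0 : ℝ) < m := by exact_mod_cast (by omega : 0 < m)
  have hlm : 0 < Real.log m := Real.log_pos (by exact_mod_cast (by omega : 1 < m))
  have hN0 : (0 : ℝ) < N := by exact_mod_cast hN
  have hl : 0 ≤ Real.log N := Real.log_nonneg (by exact_mod_cast hN)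
  have h1 : ∀ n ∈ Icc 1 N, (∑ i ∈ range m, (δ (n + i) - d (n + i))) ^ 2 ≤
      m * ∑ i ∈ range m, (δ (n + i) - d (n + i)) ^ 2 := by
    intro n _
    have := sq_sum_le_card_mul_sum_sq (s := range m) (f := fun i => δ (n + i) - d (n + i))
    rwa [card_range] at this
  refine (Finset.sum_le_sum h1).trans ?_
  rw [← Finset.mul_sum, Finset.sum_comm]
  have h2 : ∀ i ∈ range m, ∑ n ∈ Icc 1 N, (δ (n + i) - d (n + i)) ^ 2 ≤
      C * (((N + m : ℕ) : ℝ) / (1 + Real.log ((N + m : ℕ) : ℝ)) ^ 2) := by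
    intro i hi
    rw [mem_range] at hi
    refine le_trans ?_ (hc (N + m) (by omega))
    have e : ∑ n ∈ Icc 1 N, (δ (n + i) - d (n + i)) ^ 2 =
        ∑ n ∈ (Icc 1 N).map (addRightEmbedding i), (δ n - d n) ^ 2 := by
      rw [Finset.sum_map]
      rfl
    rw [e]
    apply Finset.sum_le_sum_of_subset_of_nonneg
    · intro n hn
      rw [Finset.mem_map] at hn
      obtain ⟨k, hk, rfl⟩ := hn
      rw [Finset.mem_Icc] at hk ⊢
      simp only [addRightEmbedding_apply]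
      omega
    · intro n _ _
      exact sq_nonneg _
  have h3 := Finset.sum_le_sum h2
  rw [Finset.sum_const, card_range, nsmul_eq_mul] at h3
  have h4 : ((N + m : ℕ) : ℝ) / (1 + Real.log ((N + m : ℕ) : ℝ)) ^ 2 ≤
      2 * N / (1 + Real.log N) ^ 2 := by
    have h5 : ((N + m : ℕ) : ℝ) ≤ 2 * N := by exact_mod_cast (by omega : N + m ≤ 2 * N)
    have h6 : Real.log N ≤ Real.log ((N + m : ℕ) : ℝ) :=
      Real.log_le_log hN0 (by exact_mod_cast (by omega : N ≤ N + m))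
    gcongr
  have h5 : (m : ℝ) ^ 2 / (1 + Real.log N) ^ 2 ≤ 1 / Real.log m ^ 2 := by
    rw [div_le_div_iff₀ (by positivity) (by positivity), one_mul, ← mul_pow]
    apply pow_le_pow_left₀ (by positivity)
    linarith
  calc (m : ℝ) * ∑ i ∈ range m, ∑ n ∈ Icc 1 N, (δ (n + i) - d (n + i)) ^ 2 ≤
      m * (m * (C * (2 * N / (1 + Real.log N) ^ 2))) := by
        apply mul_le_mul_of_nonneg_left _ hm0.le
        refine h3.trans ?_
        gcongr
    _ = 2 * C * N * ((m : ℝ) ^ 2 / (1 + Real.log N) ^ 2) := by ring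
    _ ≤ 2 * C * N * (1 / Real.log m ^ 2) := by gcongr
    _ = _ := by ring

/-- **the second sums of the covariances of `δ`** -/
theorem Pair.second {δ d : ℕ → ℝ} (h : Pair δ d) {a : ℝ} (ha : 0 ≤ a)
    (hd : ∀ ε : ℝ, 0 < ε → ∀ᶠ m : ℕ in atTop, ∀ N : ℕ, 1 ≤ N → (m : ℝ) * Real.log m ≤ Real.log N →
      |∑ n ∈ Icc 1 N, (∑ i ∈ range m, d (n + i) - m) ^ 2 - a * Real.log m * N| ≤
        ε * Real.log m * N) (ε : ℝ) (hε : 0 < ε) :
    ∀ᶠ m : ℕ in atTop, ∀ N : ℕ, 1 ≤ N → (m : ℝ) * Real.log m ≤ Real.log N →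
      |(1 / N : ℝ) * ∑ n ∈ Icc 1 N, (∑ i ∈ range m, (δ (n + i) - 1)) ^ 2 - a * Real.log m| ≤
        ε * Real.log m ∧
      |W (fun k => cov (fun n => δ n - 1) k N) m - a * Real.log m| ≤ ε * Real.log m := by
  obtain ⟨C, hC, hblk⟩ := h.block
  obtain ⟨G, hG, hgr⟩ := h.growth
  obtain ⟨θ, hθ⟩ : ∃ θ : ℝ, θ = ε / (4 * (a + ε)) := ⟨_, rfl⟩
  have hθ0 : 0 < θ := by rw [hθ]; positivity
  have hlog : Tendsto (fun m : ℕ => Real.log (m : ℝ)) atTop atTop :=
    Real.tendsto_log_atTop.comp tendsto_natCast_atTop_atTop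
  -- the error of the expansion
  have hexp : ∀ᶠ x : ℝ in atTop, 2 * Real.log x ^ 3 * (G * (1 + Real.log (3 * x))) ^ 2 ≤ ε / 4 * x := by
    have h1 := (isLittleO_log_rpow_atTop (show (0 : ℝ) < 1 / 10 by norm_num)).bound
      (c := 1) one_pos
    have h2 : ∀ᶠ x : ℝ in atTop, 2 * 9 * G ^ 2 * 2 ^ 2 ≤ ε / 4 * Real.sqrt x :=
      (Real.tendsto_sqrt_atTop.const_mul_atTop (show 0 < ε / 4 by positivity)).eventually_ge_atTop _
    filter_upwards [h1, h2, eventually_ge_atTop (Real.exp 2)] with x hx hx2 hx3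
    have hxe : (1 : ℝ) ≤ Real.exp 2 := Real.one_le_exp (by norm_num)
    have hx1 : (1 : ℝ) ≤ x := hxe.trans hx3
    have hl2 : 2 ≤ Real.log x := by
      rw [Real.le_log_iff_exp_le (by linarith)]
      exact hx3
    rw [Real.norm_of_nonneg (by linarith), Real.norm_of_nonneg (by positivity), one_mul] at hx
    have h3 : Real.log (3 * x) ≤ 2 + Real.log x := by
      rw [Real.log_mul (by norm_num) (by linarith)]
      have : Real.log 3 ≤ 2 := by
        have := Real.log_le_sub_one_of_pos (show (0 : ℝ) < 3 by norm_num)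
        linarith
      linarith
    have h4 : 1 + Real.log (3 * x) ≤ 3 * Real.log x := by linarith
    have h40 : 0 ≤ 1 + Real.log (3 * x) := by
      have := Real.log_nonneg (show 1 ≤ 3 * x by linarith)
      linarith
    have h5 : Real.log x ^ 5 ≤ Real.sqrt x := by
      calc Real.log x ^ 5 ≤ (x ^ (1 / 10 : ℝ)) ^ 5 := pow_le_pow_left₀ (by linarith) hx 5
        _ = x ^ ((1 / 10 : ℝ) * 5) := by
            rw [← Real.rpow_natCast, ← Real.rpow_mul (by linarith)]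
            norm_num
        _ = Real.sqrt x := by rw [Real.sqrt_eq_rpow]; norm_num
    calc 2 * Real.log x ^ 3 * (G * (1 + Real.log (3 * x))) ^ 2 ≤
        2 * Real.log x ^ 3 * (G * (3 * Real.log x)) ^ 2 := by gcongr
      _ = 2 * 9 * G ^ 2 * Real.log x ^ 5 := by ring
      _ ≤ 2 * 9 * G ^ 2 * Real.sqrt x := by gcongr
      _ ≤ (ε / 4 * Real.sqrt x) * Real.sqrt x := by
          apply mul_le_mul_of_nonneg_right _ (Real.sqrt_nonneg _)
          have : 0 ≤ 2 * 9 * G ^ 2 := by positivity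
          linarith
      _ = ε / 4 * x := by rw [mul_assoc, Real.mul_self_sqrt (by linarith)]
  obtain ⟨x0, hx0⟩ := hexp.exists_forall_of_atTop
  filter_upwards [hd (ε / 4) (by positivity), hlog.eventually_ge_atTop 1,
    hlog.eventually_ge_atTop ((1 + 1 / θ) * C / (ε / 4)), eventually_ge_atTop 3,
    tendsto_natCast_atTop_atTop.eventually_ge_atTop x0] with m hm1 hm2 hm3 hm4 hm5
  intro N hN hmN
  have hm0 : (0 : ℝ) < m := by exact_mod_cast (by omega : 0 < m)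
  have hm3' : (3 : ℝ) ≤ m := by exact_mod_cast hm4
  have hNpos : (0 : ℝ) < N := by exact_mod_cast hN
  have hmlogN : (m : ℝ) ≤ Real.log N := by
    calc (m : ℝ) = m * 1 := by ring
      _ ≤ m * Real.log m := by gcongr
      _ ≤ _ := hmN
  have hlogNN : Real.log N ≤ N := (Real.log_le_sub_one_of_pos hNpos).trans (by linarith)
  have hmN' : (m : ℝ) ≤ N := hmlogN.trans hlogNN
  have hmNn : m ≤ N := by exact_mod_cast hmN'
  have k1 := hm1 N hN hmN
  have k2 := hblk m N (by omega) hN hmN hmNn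
  -- the sums of squares
  obtain ⟨y, hy⟩ : ∃ y : ℕ → ℝ, y = fun n => ∑ i ∈ range m, (δ (n + i) - 1) := ⟨_, rfl⟩
  obtain ⟨z, hz⟩ : ∃ z : ℕ → ℝ, z = fun n => ∑ i ∈ range m, d (n + i) - m := ⟨_, rfl⟩
  obtain ⟨E, hE⟩ : ∃ E : ℕ → ℝ, E = fun n => ∑ i ∈ range m, (δ (n + i) - d (n + i)) := ⟨_, rfl⟩
  have hyz : ∀ n, y n = z n + E n := by
    intro n
    rw [hy, hz, hE]
    simp only
    rw [Finset.sum_sub_distrib, Finset.sum_sub_distrib, Finset.sum_const, card_range, nsmul_eq_mul,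
      mul_one]
    ring
  have k1' : |∑ n ∈ Icc 1 N, z n ^ 2 - a * Real.log m * N| ≤ ε / 4 * Real.log m * N := by
    rw [hz]; exact k1
  have k2' : ∑ n ∈ Icc 1 N, E n ^ 2 ≤ C * (N / Real.log m ^ 2) := by rw [hE]; exact k2
  have hz2 : ∑ n ∈ Icc 1 N, z n ^ 2 ≤ (a + ε) * Real.log m * N := by
    have := (abs_le.1 k1').2
    have h5 : 0 ≤ ε * Real.log m * N := by positivity
    linarith
  have hdif : |∑ n ∈ Icc 1 N, y n ^ 2 - ∑ n ∈ Icc 1 N, z n ^ 2| ≤
      θ * ∑ n ∈ Icc 1 N, z n ^ 2 + (1 + 1 / θ) * ∑ n ∈ Icc 1 N, E n ^ 2 := by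
    rw [← Finset.sum_sub_distrib, Finset.mul_sum, Finset.mul_sum, ← Finset.sum_add_distrib]
    refine (Finset.abs_sum_le_sum_abs _ _).trans (Finset.sum_le_sum fun n _ => ?_)
    rw [hyz n]
    have e1 : (z n + E n) ^ 2 - z n ^ 2 = 2 * z n * E n + E n ^ 2 := by ring
    have e2 : |2 * z n * E n| ≤ θ * z n ^ 2 + 1 / θ * E n ^ 2 := by
      have h6 : 0 ≤ (θ * |z n| - |E n|) ^ 2 / θ := by positivity
      have h7 : (θ * |z n| - |E n|) ^ 2 / θ = θ * z n ^ 2 + 1 / θ * E n ^ 2 - 2 * |z n| * |E n| := by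
        field_simp
        ring_nf
        rw [sq_abs, sq_abs]
      rw [abs_mul, abs_mul, abs_two]
      linarith
    rw [e1]
    calc |2 * z n * E n + E n ^ 2| ≤ |2 * z n * E n| + |E n ^ 2| := abs_add_le _ _
      _ ≤ θ * z n ^ 2 + 1 / θ * E n ^ 2 + E n ^ 2 := by
          rw [abs_of_nonneg (sq_nonneg (E n))]
          linarith
      _ = _ := by ring
  have h1 : θ * ∑ n ∈ Icc 1 N, z n ^ 2 ≤ ε / 4 * Real.log m * N := by
    calc θ * ∑ n ∈ Icc 1 N, z n ^ 2 ≤ θ * ((a + ε) * Real.log m * N) := by gcongr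
      _ = _ := by rw [hθ]; field_simp
  have h2 : (1 + 1 / θ) * ∑ n ∈ Icc 1 N, E n ^ 2 ≤ ε / 4 * Real.log m * N := by
    have h6 : (1 + 1 / θ) * C ≤ ε / 4 * Real.log m := by
      rw [div_le_iff₀ (by positivity)] at hm3
      linarith
    have h7 : (1 : ℝ) ≤ Real.log m ^ 2 := one_le_pow₀ hm2
    calc (1 + 1 / θ) * ∑ n ∈ Icc 1 N, E n ^ 2 ≤ (1 + 1 / θ) * (C * (N / Real.log m ^ 2)) := by gcongr
      _ = ((1 + 1 / θ) * C) * (N / Real.log m ^ 2) := by ring
      _ ≤ (ε / 4 * Real.log m) * (N / Real.log m ^ 2) := by gcongr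
      _ ≤ (ε / 4 * Real.log m) * N := by
          apply mul_le_mul_of_nonneg_left _ (by positivity)
          exact div_le_self hNpos.le h7
      _ = _ := by ring
  -- the expansion
  have hl3 : ∀ n, 1 ≤ n → n ≤ N + 2 * m → |δ n - 1| ≤ G * (1 + Real.log (3 * N)) := by
    intro n hn1 hn2
    refine (hgr n hn1).trans ?_
    have h6 : Real.log n ≤ Real.log (3 * N) := by
      apply Real.log_le_log (by exact_mod_cast hn1)
      have : (n : ℝ) ≤ N + 2 * m := by exact_mod_cast hn2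
      linarith
    gcongr
  have h3 := expand (fun n => δ n - 1) N m _ hl3
  have h4 : 2 * (m : ℝ) ^ 3 * (G * (1 + Real.log (3 * N))) ^ 2 ≤ ε / 4 * N := by
    have h6 : 0 ≤ Real.log (3 * (N : ℝ)) := Real.log_nonneg (by
      have : (1 : ℝ) ≤ N := by exact_mod_cast hN
      linarith)
    calc 2 * (m : ℝ) ^ 3 * (G * (1 + Real.log (3 * N))) ^ 2 ≤
        2 * Real.log N ^ 3 * (G * (1 + Real.log (3 * N))) ^ 2 := by gcongr
      _ ≤ ε / 4 * N := hx0 N (hm5.trans hmN')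
  have h5 : ε / 4 * N ≤ ε / 4 * Real.log m * N := by
    have : ε / 4 * N = ε / 4 * 1 * N := by ring
    rw [this]
    gcongr
  have e1 : W (fun k => cov (fun n => δ n - 1) k N) m =
      (m * AA (fun n => δ n - 1) 0 N + 2 * ∑ k ∈ Ico 1 m, ((m : ℝ) - k) * AA (fun n => δ n - 1) k N) / N := by
    unfold W
    have e2 : ∀ k, cov (fun n => δ n - 1) k N = (1 / N : ℝ) * AA (fun n => δ n - 1) k N := fun k => rfl
    simp_rw [e2]
    have e3 : ∑ k ∈ Ico 1 m, ((m : ℝ) - k) * (1 / N * AA (fun n => δ n - 1) k N) =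
        (1 / N : ℝ) * ∑ k ∈ Ico 1 m, ((m : ℝ) - k) * AA (fun n => δ n - 1) k N := by
      rw [Finset.mul_sum]
      exact Finset.sum_congr rfl fun k _ => by ring
    rw [e3]
    field_simp
  have e4 : ∑ n ∈ Icc 1 N, (∑ i ∈ range m, (fun n => δ n - 1) (n + i)) ^ 2 = ∑ n ∈ Icc 1 N, y n ^ 2 := by
    rw [hy]
  rw [e4] at h3
  have hfin0 : |∑ n ∈ Icc 1 N, y n ^ 2 - a * Real.log m * N| ≤ ε * Real.log m * N := by
    have h8 : 0 ≤ ε / 4 * Real.log m * N := by positivity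
    rw [abs_le] at hdif k1' ⊢
    constructor
    · linarith [hdif.1, hdif.2, k1'.1, k1'.2]
    · linarith [hdif.1, hdif.2, k1'.1, k1'.2]
  have hfin : |(m * AA (fun n => δ n - 1) 0 N +
      2 * ∑ k ∈ Ico 1 m, ((m : ℝ) - k) * AA (fun n => δ n - 1) k N) - a * Real.log m * N| ≤
      ε * Real.log m * N := by
    rw [abs_le] at h3 hdif k1' ⊢
    constructor
    · linarith [h3.1, h3.2, hdif.1, hdif.2, k1'.1, k1'.2]
    · linarith [h3.1, h3.2, hdif.1, hdif.2, k1'.1, k1'.2]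
  constructor
  · have e6 : (1 / N : ℝ) * ∑ n ∈ Icc 1 N, (∑ i ∈ range m, (δ (n + i) - 1)) ^ 2 - a * Real.log m =
        (∑ n ∈ Icc 1 N, y n ^ 2 - a * Real.log m * N) / N := by
      rw [hy]
      field_simp
    rw [e6, abs_div, abs_of_pos hNpos, div_le_iff₀ hNpos]
    exact hfin0
  rw [e1]
  have e5 : (m * AA (fun n => δ n - 1) 0 N +
      2 * ∑ k ∈ Ico 1 m, ((m : ℝ) - k) * AA (fun n => δ n - 1) k N) / N - a * Real.log m =
      ((m * AA (fun n => δ n - 1) 0 N +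
      2 * ∑ k ∈ Ico 1 m, ((m : ℝ) - k) * AA (fun n => δ n - 1) k N) - a * Real.log m * N) / N := by
    field_simp
  rw [e5, abs_div, abs_of_pos hNpos, div_le_iff₀ hNpos]
  exact hfin

end Pool.Agent.U139.GC
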