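import Pool.Agent.U139.GC.Zeta

/-!
# The covariances of the gaps between the zeta zeros (under RH)

Let `δ_n` be the normalised gaps and `Cov_N(k) = (1/N) ∑_{n ≤ N} (δ_n - 1)(δ_{n+k} - 1)`.  On the Riemann
hypothesis, as `m → ∞` and uniformly in `N ≥ exp(m log m)`,

* the mean square of the centred sum of `m` consecutive gaps is `(1/π² + o(1)) log m`;
* `m Cov_N(0) + 2 ∑_{1 ≤ k < m} (m - k) Cov_N(k) = (1/π² + o(1)) log m`; in particular the variance of the
  gaps is minus twice the (Cesàro) sum of their covariances;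
* for every `η > 0` the numbers `k² Cov_N(k)`, `K ≤ k ≤ K^(1+η)`, are not all above `-1/(2π²) + ε` and not
  all below `-1/(2π²) - ε`: the decay `-1/(2π²k²)` of the covariances of the GUE spacings is the only
  possible one.

The mean square comes from the theorem `Pool.Agent.R320.VQ.conv` of the library of this repository (limit law
of the gap sums, with test functions of polynomial growth).
-/

open Filter

namespace Pool.Agent.U139.GC.Fin

/-- multiplicity of `s` as a zero of the Riemann zeta function (order of vanishing at `s`) -/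
noncomputable def zmult (s : ℂ) : ℕ := analyticOrderNatAt riemannZeta s

/-- the number of nontrivial zeros of `ζ` with ordinate in `(0, t]`, with multiplicity -/
noncomputable def NZ (t : ℝ) : ℕ :=
  ∑ᶠ s ∈ {s : ℂ | riemannZeta s = 0 ∧ 0 < s.re ∧ s.re < 1 ∧ 0 < s.im ∧ s.im ≤ t}, zmult s

/-- for `n ≥ 1`: the `n`-th positive ordinate `γ n` of a nontrivial zero of `ζ`, the ordinates being
listed in nondecreasing order and repeated according to multiplicity -/
noncomputable def γ (n : ℕ) : ℝ := sInf {t : ℝ | n ≤ NZ t}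

/-- the normalised gaps `δ_n = (γ_{n+1} log γ_{n+1} - γ_n log γ_n) / 2π` -/
noncomputable def δ (n : ℕ) : ℝ :=
  (γ (n + 1) * Real.log (γ (n + 1)) - γ n * Real.log (γ n)) / (2 * Real.pi)

/-- `Cov_N(k) = (1/N) ∑_{n ≤ N} (δ_n - 1) (δ_{n+k} - 1)`, the covariance of gaps at distance `k` -/
noncomputable def Cov (N k : ℕ) : ℝ :=
  (1 / N : ℝ) * ∑ n ∈ Finset.Icc 1 N, (δ n - 1) * (δ (n + k) - 1)

/-- **Covariances of the gaps between the zeta zeros, on the Riemann hypothesis.** -/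
theorem result (RH : RiemannHypothesis) :
    (∀ ε : ℝ, 0 < ε → ∃ m₀ : ℕ, ∀ m : ℕ, m₀ ≤ m → ∀ N : ℕ, 1 ≤ N → m * Real.log m ≤ Real.log N →
      |(1 / N : ℝ) * ∑ n ∈ Finset.Icc 1 N, (∑ i ∈ Finset.range m, (δ (n + i) - 1)) ^ 2 -
        Real.log m / Real.pi ^ 2| ≤ ε * Real.log m ∧
      |m * Cov N 0 + 2 * ∑ k ∈ Finset.Ico 1 m, ((m : ℝ) - k) * Cov N k -
        Real.log m / Real.pi ^ 2| ≤ ε * Real.log m) ∧
    (∀ ε η : ℝ, 0 < ε → 0 < η → ∃ K₀ : ℕ, ∀ K : ℕ, K₀ ≤ K → ∀ N : ℕ, 1 ≤ N →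
      (K : ℝ) ^ (1 + η) * Real.log ((K : ℝ) ^ (1 + η)) ≤ Real.log N →
      (∃ k : ℕ, K ≤ k ∧ (k : ℝ) ≤ (K : ℝ) ^ (1 + η) ∧
        (k : ℝ) ^ 2 * Cov N k ≤ -(1 / (2 * Real.pi ^ 2)) + ε) ∧
      (∃ k : ℕ, K ≤ k ∧ (k : ℝ) ≤ (K : ℝ) ^ (1 + η) ∧
        -(1 / (2 * Real.pi ^ 2)) - ε ≤ (k : ℝ) ^ 2 * Cov N k)) := by
  have hRHs : SP.RHs := by
    intro s h1 h2 h0
    apply RH s h0
    · rintro ⟨k, hk⟩
      have := congrArg Complex.re hk
      simp at this
      have hk0 : (0 : ℝ) ≤ k := Nat.cast_nonneg k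
      linarith
    · intro h; rw [h] at h2; simp at h2
  have hC : ∀ N k : ℕ, Pool.Agent.R846.NC.cov (fun n => LG.dlt n - 1) k N = Cov N k :=
    fun N k => rfl
  constructor
  · intro ε hε
    obtain ⟨m0, hm0⟩ := (Pool.Agent.U139.GC.second_zeta hRHs ε hε).exists_forall_of_atTop
    refine ⟨m0, fun m hm N hN hmN => ?_⟩
    obtain ⟨h1, h2⟩ := hm0 m hm N hN hmN
    have e : 1 / Real.pi ^ 2 * Real.log m = Real.log m / Real.pi ^ 2 := by ring
    rw [e] at h1 h2
    exact ⟨h1, h2⟩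
  · intro ε η hε hη
    obtain ⟨K0, hK0⟩ := (Pool.Agent.U139.GC.window_zeta hRHs ε η hε hη).exists_forall_of_atTop
    refine ⟨K0, fun K hK N hN hKN => ?_⟩
    exact hK0 K hK N hN hKN

end Pool.Agent.U139.GC.Fin
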