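import Pool.Agent.U139.GC.Seq

/-! # Windows `[K, K ^ (1 + η)]` -/

set_option autoImplicit false

open Finset Filter Topology

namespace Pool.Agent.U139.GC

/-- the choice of the four points -/
lemma points {a ε η : ℝ} (ha : 0 < a) (hε : 0 < ε) (hη : 0 < η) :
    ∃ e : ℝ, 0 < e ∧ ∀ᶠ K : ℕ in atTop, ∃ K1 K2 M : ℕ, 1 ≤ K ∧ K ≤ K1 ∧ K1 ≤ K2 ∧ K2 < M ∧
      (M : ℝ) ≤ (K : ℝ) ^ (1 + η) ∧
      2 * (e * Real.log M) < ε * (Real.log K1 - Real.log K) ∧ 2 * a / ε ≤ K ∧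
      a * Real.log M + 2 * (e * Real.log M) < ((M : ℝ) - K1) * (ε / (2 * K1)) ∧
      (a + 2 * ε) / K + K1 * ((a + 2 * ε) / K2 + 2 * (e * Real.log M) / ((M : ℝ) - K2)) <
        ε * (Real.log K1 - Real.log K) := by
  obtain ⟨e, he⟩ : ∃ e : ℝ, e = ε * η / (12 * (1 + η)) := ⟨_, rfl⟩
  have he0 : 0 < e := by rw [he]; positivity
  have he1 : e * (1 + η) = ε * η / 12 := by rw [he]; field_simp
  refine ⟨e, he0, ?_⟩
  obtain ⟨C2, hC2⟩ : ∃ C2 : ℝ, C2 = 8 * (a + 2 * e) * (1 + η) / ε + 8 * e * (1 + η) + 1 := ⟨_, rfl⟩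
  have hC20 : 0 < C2 := by rw [hC2]; positivity
  have hnat := tendsto_natCast_atTop_atTop (R := ℝ)
  have t1 : Tendsto (fun K : ℕ => (K : ℝ) ^ (η / 3)) atTop atTop :=
    (tendsto_rpow_atTop (by positivity)).comp hnat
  have t2 : Tendsto (fun K : ℕ => Real.log (K : ℝ)) atTop atTop := Real.tendsto_log_atTop.comp hnat
  have t3 : ∀ᶠ K : ℕ in atTop, C2 * Real.log (K : ℝ) ≤ (K : ℝ) ^ (η / 3) := by
    have h1 := (isLittleO_log_rpow_atTop (show 0 < η / 3 by positivity)).bound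
      (c := 1 / C2) (by positivity)
    filter_upwards [hnat.eventually h1, eventually_ge_atTop 1] with K hK hK1
    have hK0 : (1 : ℝ) ≤ K := by exact_mod_cast hK1
    rw [Real.norm_of_nonneg (Real.log_nonneg hK0), Real.norm_of_nonneg (by positivity)] at hK
    calc C2 * Real.log K ≤ C2 * (1 / C2 * (K : ℝ) ^ (η / 3)) := by gcongr
      _ = _ := by field_simp
  filter_upwards [t1.eventually_ge_atTop 8, t3, t2.eventually_ge_atTop 1,
    t2.eventually_gt_atTop ((2 * (a + 2 * ε) + 1 + ε * Real.log 2) / (ε * (η / 3))),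
    t2.eventually_gt_atTop (Real.log 2 / (η / 6)), hnat.eventually_ge_atTop (2 * a / ε),
    eventually_ge_atTop 1] with K hu8 huL hL1 hL2 hL3 hKa hK1
  have hK0 : (0 : ℝ) < K := by exact_mod_cast hK1
  have hK01 : (1 : ℝ) ≤ K := by exact_mod_cast hK1
  obtain ⟨u, hu⟩ : ∃ u : ℝ, u = (K : ℝ) ^ (η / 3) := ⟨_, rfl⟩
  obtain ⟨L, hL⟩ : ∃ L : ℝ, L = Real.log K := ⟨_, rfl⟩
  rw [← hu] at hu8 huL
  rw [← hL] at huL hL1 hL2 hL3
  have p1 : (K : ℝ) ^ (1 + η / 3) = K * u := by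
    rw [Real.rpow_add hK0, Real.rpow_one, hu]
  have p2 : (K : ℝ) ^ (1 + 2 * η / 3) = K * u ^ 2 := by
    rw [Real.rpow_add hK0, Real.rpow_one, hu, ← Real.rpow_natCast, ← Real.rpow_mul hK0.le]
    congr 2
    push_cast
    ring
  have p3 : (K : ℝ) ^ (1 + η) = K * u ^ 3 := by
    rw [Real.rpow_add hK0, Real.rpow_one, hu, ← Real.rpow_natCast, ← Real.rpow_mul hK0.le]
    congr 2
    push_cast
    ring
  have hu0 : 0 < u := by linarith
  have fl : ∀ x : ℝ, 1 ≤ x → x / 2 ≤ (⌊x⌋₊ : ℝ) ∧ (⌊x⌋₊ : ℝ) ≤ x := by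
    intro x hx
    have h1 := Nat.lt_floor_add_one x
    have h2 : (1 : ℝ) ≤ (⌊x⌋₊ : ℝ) := by
      have : 1 ≤ ⌊x⌋₊ := Nat.le_floor (by simpa using hx)
      exact_mod_cast this
    exact ⟨by linarith, Nat.floor_le (by linarith)⟩
  have hKu : 1 ≤ K * u := by nlinarith
  have hKu2 : 1 ≤ K * u ^ 2 := by nlinarith [mul_pos hK0 hu0]
  have hKu3 : 1 ≤ K * u ^ 3 := by
    have : K * u ^ 2 ≤ K * u ^ 3 := by
      have : u ^ 2 ≤ u ^ 3 := pow_le_pow_right₀ (by linarith) (by norm_num)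
      gcongr
    linarith
  obtain ⟨K1, hK1d⟩ : ∃ K1 : ℕ, K1 = ⌊K * u⌋₊ := ⟨_, rfl⟩
  obtain ⟨K2, hK2d⟩ : ∃ K2 : ℕ, K2 = ⌊K * u ^ 2⌋₊ := ⟨_, rfl⟩
  obtain ⟨M, hMd⟩ : ∃ M : ℕ, M = ⌊K * u ^ 3⌋₊ := ⟨_, rfl⟩
  obtain ⟨b1, b1'⟩ := fl _ hKu
  obtain ⟨b2, b2'⟩ := fl _ hKu2
  obtain ⟨b3, b3'⟩ := fl _ hKu3
  rw [← hK1d] at b1 b1'
  rw [← hK2d] at b2 b2'
  rw [← hMd] at b3 b3'
  have hKu4 : (0 : ℝ) < K * u := by positivity
  have q1 : (K : ℝ) ≤ K1 := by nlinarith
  have q2 : (K1 : ℝ) ≤ K2 := by nlinarith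
  have q3 : (K2 : ℝ) < M := by nlinarith [mul_pos hK0 (by positivity : 0 < u ^ 2)]
  have hK10 : (0 : ℝ) < K1 := by linarith
  have hK20 : (0 : ℝ) < K2 := by linarith
  have hM0 : (0 : ℝ) < M := by linarith
  have hlogM : Real.log M ≤ (1 + η) * L := by
    have h1 : Real.log M ≤ Real.log ((K : ℝ) ^ (1 + η)) := Real.log_le_log hM0 (by rw [p3]; exact b3')
    rwa [Real.log_rpow hK0, ← hL] at h1
  have hlogM0 : 0 ≤ Real.log M := Real.log_natCast_nonneg M
  have hlogu : Real.log u = η / 3 * L := by rw [hu, Real.log_rpow hK0, hL]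
  have hlogK1 : η / 3 * L - Real.log 2 ≤ Real.log K1 - Real.log K := by
    have h1 : Real.log (K * u / 2) ≤ Real.log K1 := Real.log_le_log (by positivity) b1
    rw [Real.log_div (by positivity) (by norm_num), Real.log_mul hK0.ne' hu0.ne', hlogu] at h1
    linarith
  have heM : e * Real.log M ≤ ε * η / 12 * L := by
    calc e * Real.log M ≤ e * ((1 + η) * L) := by gcongr
      _ = (e * (1 + η)) * L := by ring
      _ = _ := by rw [he1]
  have heM0 : 0 ≤ e * Real.log M := by positivity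
  refine ⟨K1, K2, M, hK1, by exact_mod_cast q1, by exact_mod_cast q2, by exact_mod_cast q3,
    by rw [p3]; exact b3', ?_, hKa, ?_, ?_⟩
  · rw [div_lt_iff₀ (by positivity)] at hL3
    have h1 : ε * (η / 3 * L - Real.log 2) ≤ ε * (Real.log K1 - Real.log K) := by gcongr
    have h2 : ε * Real.log 2 < ε * (L * (η / 6)) := by gcongr
    have h3 : 2 * (ε * η / 12 * L) = ε * (L * (η / 6)) := by ring
    have h4 : ε * (η / 3 * L - Real.log 2) = 2 * (ε * (L * (η / 6))) - ε * Real.log 2 := by ring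
    linarith
  · have h1 : a * Real.log M + 2 * (e * Real.log M) ≤ (a + 2 * e) * ((1 + η) * L) := by
      calc _ = (a + 2 * e) * Real.log M := by ring
        _ ≤ _ := by gcongr
    have h2 : (K * u ^ 3 / 2 - K * u) * (ε / (2 * (K * u))) ≤ ((M : ℝ) - K1) * (ε / (2 * K1)) := by
      apply mul_le_mul (by linarith) _ (by positivity) (by linarith)
      apply div_le_div_of_nonneg_left hε.le (by positivity) (by linarith)
    have h3 : (K * u ^ 3 / 2 - K * u) * (ε / (2 * (K * u))) = (u ^ 2 / 2 - 1) * (ε / 2) := by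
      field_simp
    have h4 : u ^ 2 / 4 ≤ u ^ 2 / 2 - 1 := by nlinarith
    have h5 : C2 * L * ε / 8 ≤ (u ^ 2 / 2 - 1) * (ε / 2) := by
      have h6 : C2 * L ≤ u ^ 2 := by nlinarith
      calc C2 * L * ε / 8 = (C2 * L / 4) * (ε / 2) := by ring
        _ ≤ (u ^ 2 / 4) * (ε / 2) := by gcongr
        _ ≤ _ := by gcongr
    have h6 : (a + 2 * e) * ((1 + η) * L) < C2 * L * ε / 8 := by
      have h7 : C2 * L * ε / 8 = (a + 2 * e) * ((1 + η) * L) + (8 * e * (1 + η) + 1) * L * ε / 8 := by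
        rw [hC2]
        field_simp
        ring
      rw [h7]
      have : 0 < (8 * e * (1 + η) + 1) * L * ε / 8 := by positivity
      linarith
    linarith
  · have h1 : (a + 2 * ε) / K ≤ a + 2 * ε := div_le_self (by positivity) hK01
    have h2 : K1 * ((a + 2 * ε) / K2) ≤ a + 2 * ε := by
      calc K1 * ((a + 2 * ε) / K2) ≤ (K * u) * ((a + 2 * ε) / (K * u ^ 2 / 2)) := by gcongr
        _ = (a + 2 * ε) * (2 / u) := by field_simp
        _ ≤ (a + 2 * ε) * 1 := by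
            apply mul_le_mul_of_nonneg_left _ (by positivity)
            rw [div_le_one hu0]
            linarith
        _ = _ := by ring
    have h3 : K * u ^ 3 / 4 ≤ (M : ℝ) - K2 := by
      have : K * u ^ 2 ≤ K * u ^ 3 / 4 := by
        have e1 : K * u ^ 3 / 4 = K * u ^ 2 * (u / 4) := by ring
        rw [e1]
        have : 1 ≤ u / 4 := by linarith
        exact le_mul_of_one_le_right (by positivity) this
      linarith
    have h4 : K1 * (2 * (e * Real.log M) / ((M : ℝ) - K2)) ≤ 1 := by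
      calc K1 * (2 * (e * Real.log M) / ((M : ℝ) - K2)) ≤
          (K * u) * (2 * (e * ((1 + η) * L)) / (K * u ^ 3 / 4)) := by gcongr
        _ = (8 * e * (1 + η) * L) / u ^ 2 := by field_simp; ring
        _ ≤ 1 := by
            rw [div_le_one (by positivity)]
            have h5 : 8 * e * (1 + η) * L ≤ C2 * L := by
              have : 8 * e * (1 + η) ≤ C2 := by
                rw [hC2]
                have : 0 < 8 * (a + 2 * e) * (1 + η) / ε := by positivity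
                linarith
              gcongr
            nlinarith
    have h5 : ε * (η / 3 * L - Real.log 2) ≤ ε * (Real.log K1 - Real.log K) := by gcongr
    rw [div_lt_iff₀ (by positivity)] at hL2
    have h6 : K1 * ((a + 2 * ε) / K2 + 2 * (e * Real.log M) / ((M : ℝ) - K2)) =
        K1 * ((a + 2 * ε) / K2) + K1 * (2 * (e * Real.log M) / ((M : ℝ) - K2)) := by ring
    have h7 : L * (ε * (η / 3)) = ε * (η / 3 * L) := by ring
    rw [h6]
    rw [h7] at hL2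
    have h8 : ε * (η / 3 * L - Real.log 2) = ε * (η / 3 * L) - ε * Real.log 2 := by ring
    linarith

/-- **both inequalities in every long window** -/
theorem window {a ε η : ℝ} (ha : 0 < a) (hε : 0 < ε) (hη : 0 < η) :
    ∃ e : ℝ, 0 < e ∧ ∀ᶠ K : ℕ in atTop, ∀ c : ℕ → ℝ,
      (∀ m : ℕ, K ≤ m → (m : ℝ) ≤ (K : ℝ) ^ (1 + η) → |W c m - a * Real.log m| ≤ e * Real.log m) →
      (∃ k : ℕ, K ≤ k ∧ (k : ℝ) ≤ (K : ℝ) ^ (1 + η) ∧ (k : ℝ) ^ 2 * c k ≤ -(a / 2) + ε) ∧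
      (∃ k : ℕ, K ≤ k ∧ (k : ℝ) ≤ (K : ℝ) ^ (1 + η) ∧ -(a / 2) - ε ≤ (k : ℝ) ^ 2 * c k) := by
  obtain ⟨ε1, hε1⟩ : ∃ ε1 : ℝ, ε1 = min ε (a / 2) := ⟨_, rfl⟩
  have hε10 : 0 < ε1 := by rw [hε1]; exact lt_min hε (by positivity)
  have hε1a : 2 * ε1 ≤ a := by
    have := min_le_right ε (a / 2)
    rw [← hε1] at this
    linarith
  have hε1e : ε1 ≤ ε := by rw [hε1]; exact min_le_left _ _
  obtain ⟨e, he, h⟩ := points ha hε10 hη
  refine ⟨e, he, ?_⟩
  filter_upwards [h] with K hK c hc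
  obtain ⟨K1, K2, M, g1, g2, g3, g4, g5, g6, g7, g8, g9⟩ := hK
  have hW : ∀ m, K ≤ m → m ≤ M → |W c m - a * Real.log m| ≤ e * Real.log M := by
    intro m hm hmM
    have hmM' : (m : ℝ) ≤ M := by exact_mod_cast hmM
    have hm0 : (0 : ℝ) < m := by exact_mod_cast (by omega : 0 < m)
    refine (hc m hm (hmM'.trans g5)).trans ?_
    exact mul_le_mul_of_nonneg_left (Real.log_le_log hm0 hmM') he.le
  have hlM : 0 ≤ Real.log M := Real.log_natCast_nonneg M
  constructor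
  · obtain ⟨k, k1, k2, k3⟩ := exists_low g1 g2 (g3.trans g4.le) hε10 hε1a hW g6 g7 g8
    have k2' : (k : ℝ) ≤ M := by exact_mod_cast k2
    exact ⟨k, k1, k2'.trans g5, by linarith⟩
  · obtain ⟨k, k1, k2, k3⟩ := exists_high g1 g2 g3 g4 hε10 ha (by positivity) hW g6 g9
    have k2' : (k : ℝ) ≤ M := by exact_mod_cast k2
    exact ⟨k, k1, k2'.trans g5, by linarith⟩

end Pool.Agent.U139.GC
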