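import Pool.Agent.U139.GC.Win
import Pool.Agent.U139.GC.Cmp
import Pool.Agent.R320.VQ.Conv
import Pool.Agent.Y743.PR.Main

/-! # The gaps between the zeta zeros: second sums of the covariances -/

set_option autoImplicit false

open Finset Filter Topology MeasureTheory ProbabilityTheory

namespace Pool.Agent.U139.GC

open SG (ord NZ)
open SP (RHs)
open LG (dlt)
open Pool.Agent.R846.NC (cov)

lemma gs_sq : ∫ x : ℝ, x ^ 2 ∂(gaussianReal 0 1) = 1 := by
  have h1 := variance_fun_id_gaussianReal (μ := 0) (v := 1)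
  rw [variance_of_integral_eq_zero (by fun_prop) (by simp)] at h1
  simpa using h1

/-- `log γ_n` is of order `log n` -/
lemma log_ord : ∃ (c : ℝ) (n0 : ℕ), 0 < c ∧ 1 ≤ n0 ∧ ∀ n, n0 ≤ n → c * (1 + Real.log n) ≤ Real.log (ord n) := by
  obtain ⟨C, hC, N0, hN0, h⟩ := Pool.Agent.R320.VQ.N_x
  have h1 : ∀ᶠ n : ℕ in atTop, max (Real.exp (1 + Real.log C)) 3 ≤ ord n :=
    SG.ord_tendsto.eventually_ge_atTop _
  obtain ⟨n1, hn1⟩ := h1.exists_forall_of_atTop
  refine ⟨1 / 4, max N0 n1, by norm_num, hN0.trans (le_max_left _ _), fun n hn => ?_⟩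
  have hnN : N0 ≤ n := (le_max_left _ _).trans hn
  have hx := hn1 n ((le_max_right _ _).trans hn)
  have hx1 : Real.exp (1 + Real.log C) ≤ ord n := (le_max_left _ _).trans hx
  have hx2 : 3 ≤ ord n := (le_max_right _ _).trans hx
  have hx0 : 0 < ord n := by linarith
  have hC0 : 0 < C := by linarith
  have h2 := (h n hnN).2
  have h3 : 1 + Real.log C ≤ Real.log (ord n) := by
    rw [Real.le_log_iff_exp_le hx0]
    exact hx1
  have hn0 : (0 : ℝ) < n := by exact_mod_cast (by omega : 0 < n)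
  have hl : Real.log (ord n) ≤ ord n := (Real.log_le_sub_one_of_pos hx0).trans (by linarith)
  have h4 : (n : ℝ) ≤ C * (ord n * ord n) := by
    refine h2.trans ?_
    gcongr
  have h5 : Real.log n ≤ Real.log C + 2 * Real.log (ord n) := by
    have h6 := Real.log_le_log hn0 h4
    rw [Real.log_mul hC0.ne' (by positivity), Real.log_mul hx0.ne' hx0.ne'] at h6
    linarith
  have h7 : 0 ≤ Real.log C := Real.log_nonneg hC
  linarith

lemma pair_zeta (hRH : RHs) : Pair dlt Pool.Agent.R320.CL.dl := by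
  obtain ⟨C, hC, hgl⟩ := Pool.Agent.Y743.PR.gap_log hRH
  obtain ⟨c, n0, hc, hn0, hlo⟩ := log_ord
  have hpi := Real.pi_pos
  have hpi3 := Real.pi_gt_three
  have hpi4 := Real.pi_lt_d2
  obtain ⟨C5, hC5⟩ : ∃ C5 : ℝ, C5 = 2 * Real.pi * C / c := ⟨_, rfl⟩
  have h1 : ∀ᶠ n : ℕ in atTop, max C5 3 ≤ ord n := SG.ord_tendsto.eventually_ge_atTop _
  obtain ⟨n1, hn1⟩ := h1.exists_forall_of_atTop
  refine ⟨⟨C + 4 * Real.pi / c, max n0 n1, by positivity, fun n hn => ?_⟩,
    Pool.Agent.Y743.LR.cube_sum hRH⟩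
  have hn0' : n0 ≤ n := (le_max_left _ _).trans hn
  have hnn : 1 ≤ n := hn0.trans hn0'
  have hx := hn1 n ((le_max_right _ _).trans hn)
  have hx1 : C5 ≤ ord n := (le_max_left _ _).trans hx
  have hx3 : 3 ≤ ord n := (le_max_right _ _).trans hx
  have hxy : ord n ≤ ord (n + 1) := SG.ord_mono hnn (by omega)
  have hlog := hlo n hn0'
  have hgap := hgl n hnn
  obtain ⟨x, hxd⟩ : ∃ x : ℝ, x = ord n := ⟨_, rfl⟩
  obtain ⟨y, hyd⟩ : ∃ y : ℝ, y = ord (n + 1) := ⟨_, rfl⟩
  have hdlt : dlt n = (y * Real.log y - x * Real.log x) / (2 * Real.pi) := by rw [hxd, hyd]; rfl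
  have hdl : Pool.Agent.R320.CL.dl n = (y - x) / (2 * Real.pi) * Real.log (x / (2 * Real.pi)) := by
    rw [hxd, hyd]; rfl
  rw [← hxd] at hx1 hx3 hxy hlog
  rw [← hyd] at hxy
  have hx0 : 0 < x := by linarith
  have hy0 : 0 < y := by linarith
  have hlx : 0 ≤ Real.log x := Real.log_nonneg (by linarith)
  have hlxy : Real.log x ≤ Real.log y := Real.log_le_log hx0 hxy
  have hln : 0 ≤ Real.log n := Real.log_nonneg (by exact_mod_cast hnn)
  -- convexity
  have hconv : (y - x) * Real.log y ≤ 2 * Real.pi * dlt n := by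
    rw [hdlt]
    have h2 : x * Real.log x ≤ x * Real.log y := mul_le_mul_of_nonneg_left hlxy hx0.le
    rw [mul_div_cancel₀ _ (by positivity)]
    linarith
  have hδ0 : 0 ≤ dlt n := by
    have h2 : 0 ≤ (y - x) * Real.log y := mul_nonneg (by linarith) (by linarith)
    have h3 : 0 ≤ 2 * Real.pi * dlt n := h2.trans hconv
    exact nonneg_of_mul_nonneg_right (by linarith : 0 ≤ (2 * Real.pi) * dlt n) (by positivity)
  have hL : c * (1 + Real.log n) ≤ Real.log y := hlog.trans hlxy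
  have hLn : 0 < c * (1 + Real.log n) := by positivity
  have hyx : (y - x) * (c * (1 + Real.log n)) ≤ 2 * Real.pi * dlt n :=
    (mul_le_mul_of_nonneg_left hL (by linarith)).trans hconv
  have hyx2 : y - x ≤ x := by
    have h2 : (y - x) * (c * (1 + Real.log n)) ≤ 2 * Real.pi * (C * (1 + Real.log n)) := by
      refine hyx.trans ?_
      gcongr
    have h3 : 2 * Real.pi * (C * (1 + Real.log n)) = C5 * (c * (1 + Real.log n)) := by
      rw [hC5]; field_simp
    rw [h3] at h2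
    exact (le_of_mul_le_mul_right h2 hLn).trans hx1
  have hl2 : 0 ≤ Real.log (2 * Real.pi) := Real.log_nonneg (by linarith)
  have hl2' : Real.log (2 * Real.pi) ≤ 2 * Real.pi - 1 := Real.log_le_sub_one_of_pos (by positivity)
  have hlyx : Real.log y - Real.log x ≤ (y - x) / x := by
    have h2 := Real.log_le_sub_one_of_pos (show 0 < y / x by positivity)
    rw [Real.log_div hy0.ne' hx0.ne'] at h2
    refine h2.trans (le_of_eq ?_)
    field_simp
  have hdif : dlt n - Pool.Agent.R320.CL.dl n =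
      (y * (Real.log y - Real.log x) + (y - x) * Real.log (2 * Real.pi)) / (2 * Real.pi) := by
    rw [hdlt, hdl, Real.log_div hx0.ne' (by positivity)]
    field_simp
    ring
  have hdif0 : 0 ≤ dlt n - Pool.Agent.R320.CL.dl n := by
    rw [hdif]
    apply div_nonneg _ (by positivity)
    have h2 : 0 ≤ y * (Real.log y - Real.log x) := mul_nonneg hy0.le (by linarith)
    have h3 : 0 ≤ (y - x) * Real.log (2 * Real.pi) := mul_nonneg (by linarith) hl2
    linarith
  have hdif1 : dlt n - Pool.Agent.R320.CL.dl n ≤ 2 * (y - x) := by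
    rw [hdif, div_le_iff₀ (by positivity)]
    have h2 : y * (Real.log y - Real.log x) ≤ 2 * (y - x) := by
      calc y * (Real.log y - Real.log x) ≤ y * ((y - x) / x) := by gcongr
        _ = (y / x) * (y - x) := by ring
        _ ≤ 2 * (y - x) := by
            apply mul_le_mul_of_nonneg_right _ (by linarith)
            rw [div_le_iff₀ hx0]
            linarith
    have h3 : (y - x) * Real.log (2 * Real.pi) ≤ (y - x) * (2 * Real.pi - 1) :=
      mul_le_mul_of_nonneg_left hl2' (by linarith)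
    have h4 : 0 ≤ y - x := by linarith
    nlinarith
  refine ⟨hδ0, hdif0, ?_, ?_⟩
  · refine hdif1.trans ?_
    rw [le_div_iff₀ (by positivity)]
    have h2 : 2 * (y - x) * (1 + Real.log n) = 2 / c * ((y - x) * (c * (1 + Real.log n))) := by
      field_simp
    rw [h2]
    calc 2 / c * ((y - x) * (c * (1 + Real.log n))) ≤ 2 / c * (2 * Real.pi * dlt n) := by gcongr
      _ = 4 * Real.pi / c * dlt n := by ring
      _ ≤ (C + 4 * Real.pi / c) * dlt n := by
          apply mul_le_mul_of_nonneg_right _ hδ0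
          linarith
  · refine hgap.trans ?_
    apply mul_le_mul_of_nonneg_right _ (by linarith)
    have : 0 < 4 * Real.pi / c := by positivity
    linarith

lemma var_zeta (hRH : RHs) (ε : ℝ) (hε : 0 < ε) :
    ∀ᶠ m : ℕ in atTop, ∀ N : ℕ, 1 ≤ N → (m : ℝ) * Real.log m ≤ Real.log N →
      |∑ n ∈ Icc 1 N, (∑ i ∈ range m, Pool.Agent.R320.CL.dl (n + i) - m) ^ 2 -
        1 / Real.pi ^ 2 * Real.log m * N| ≤ ε * Real.log m * N := by
  have hpi := Real.pi_pos
  have h := Pool.Agent.R320.VQ.conv hRH (fun x => x ^ 2) (by fun_prop) 1 2 (fun x => by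
    rw [one_mul, abs_pow]
    exact pow_le_pow_left₀ (abs_nonneg _) (by linarith [abs_nonneg x]) 2) (ε * Real.pi ^ 2)
    (by positivity)
  have hgs : ∫ x, (fun x : ℝ => x ^ 2) x ∂Pool.Agent.Y743.CL.gs = 1 := gs_sq
  rw [hgs] at h
  filter_upwards [h, eventually_ge_atTop 2] with m hm hm2
  intro N hN hmN
  have h1 := hm N hN hmN
  have hlm : 0 < Real.log m := Real.log_pos (by exact_mod_cast (by omega : 1 < m))
  obtain ⟨q, hq⟩ : ∃ q : ℝ, q = Pool.Agent.Y743.CL.lm m := ⟨_, rfl⟩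
  have hq2 : q ^ 2 = Real.log m / Real.pi ^ 2 := by
    rw [hq]
    unfold Pool.Agent.Y743.CL.lm
    rw [div_pow, Real.sq_sqrt hlm.le]
  have hq0 : 0 < q := by
    rw [hq]
    unfold Pool.Agent.Y743.CL.lm
    have := Real.sqrt_pos.2 hlm
    positivity
  have e1 : ∑ n ∈ Icc 1 N, (fun x : ℝ => x ^ 2) (Pool.Agent.R320.VQ.XX m n) =
      (∑ n ∈ Icc 1 N, (∑ i ∈ range m, Pool.Agent.R320.CL.dl (n + i) - m) ^ 2) / q ^ 2 := by
    rw [Finset.sum_div]
    refine Finset.sum_congr rfl fun n _ => ?_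
    unfold Pool.Agent.R320.VQ.XX Pool.Agent.R320.CL.SS
    rw [← hq]
    show ((∑ i ∈ range m, Pool.Agent.R320.CL.dl (n + i) - (m : ℝ)) / q) ^ 2 = _
    rw [div_pow]
  rw [e1] at h1
  have h2 : |(∑ n ∈ Icc 1 N, (∑ i ∈ range m, Pool.Agent.R320.CL.dl (n + i) - m) ^ 2) -
      q ^ 2 * N| ≤ q ^ 2 * (ε * Real.pi ^ 2 * N) := by
    have e2 : (∑ n ∈ Icc 1 N, (∑ i ∈ range m, Pool.Agent.R320.CL.dl (n + i) - m) ^ 2) - q ^ 2 * N =
        q ^ 2 * ((∑ n ∈ Icc 1 N, (∑ i ∈ range m, Pool.Agent.R320.CL.dl (n + i) - m) ^ 2) / q ^ 2 -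
          1 * N) := by
      field_simp
    rw [e2, abs_mul, abs_of_pos (by positivity : 0 < q ^ 2)]
    gcongr
  rw [hq2] at h2
  have e3 : Real.log m / Real.pi ^ 2 * (ε * Real.pi ^ 2 * N) = ε * Real.log m * N := by
    field_simp
  have e4 : Real.log m / Real.pi ^ 2 * N = 1 / Real.pi ^ 2 * Real.log m * N := by ring
  rw [e3, e4] at h2
  exact h2

/-- **second sums of the covariances of the gaps** -/
theorem second_zeta (hRH : RHs) (ε : ℝ) (hε : 0 < ε) :
    ∀ᶠ m : ℕ in atTop, ∀ N : ℕ, 1 ≤ N → (m : ℝ) * Real.log m ≤ Real.log N →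
      |(1 / N : ℝ) * ∑ n ∈ Icc 1 N, (∑ i ∈ range m, (dlt (n + i) - 1)) ^ 2 -
        1 / Real.pi ^ 2 * Real.log m| ≤ ε * Real.log m ∧
      |W (fun k => cov (fun n => dlt n - 1) k N) m - 1 / Real.pi ^ 2 * Real.log m| ≤
        ε * Real.log m :=
  (pair_zeta hRH).second (by positivity) (var_zeta hRH) ε hε

/-- **covariances in long windows** -/
theorem window_zeta (hRH : RHs) (ε η : ℝ) (hε : 0 < ε) (hη : 0 < η) :
    ∀ᶠ K : ℕ in atTop, ∀ N : ℕ, 1 ≤ N →
      (K : ℝ) ^ (1 + η) * Real.log ((K : ℝ) ^ (1 + η)) ≤ Real.log N →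
      (∃ k : ℕ, K ≤ k ∧ (k : ℝ) ≤ (K : ℝ) ^ (1 + η) ∧
        (k : ℝ) ^ 2 * cov (fun n => dlt n - 1) k N ≤ -(1 / (2 * Real.pi ^ 2)) + ε) ∧
      (∃ k : ℕ, K ≤ k ∧ (k : ℝ) ≤ (K : ℝ) ^ (1 + η) ∧
        -(1 / (2 * Real.pi ^ 2)) - ε ≤ (k : ℝ) ^ 2 * cov (fun n => dlt n - 1) k N) := by
  have hpi := Real.pi_pos
  obtain ⟨e, he, hw⟩ := window (a := 1 / Real.pi ^ 2) (by positivity) hε hη
  obtain ⟨m0, hm0⟩ := (second_zeta hRH e he).exists_forall_of_atTop
  filter_upwards [hw, eventually_ge_atTop m0, eventually_ge_atTop 1] with K hK hKm hK1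
  intro N hN hKN
  have h1 := hK (fun k => cov (fun n => dlt n - 1) k N) (fun m hm hmK => by
    refine (hm0 m (hKm.trans hm) N hN ?_).2
    refine le_trans ?_ hKN
    have hm1 : (1 : ℝ) ≤ m := by exact_mod_cast hK1.trans hm
    apply mul_le_mul hmK (Real.log_le_log (by linarith) hmK) (Real.log_nonneg hm1) (by positivity))
  have e1 : -(1 / Real.pi ^ 2 / 2) = -(1 / (2 * Real.pi ^ 2)) := by
    rw [div_div, mul_comm]
  rw [e1] at h1
  exact h1

end Pool.Agent.U139.GC
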